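import Pool.Agent.Helper18.EW.Goals4

set_option autoImplicit false

namespace Pool.Agent.Helper9.EW

open Finset
open Pool.Agent.Lead.Sh
open Pool.Agent.Helper18.EW

theorem goalSw : GoalSw := by
  rintro D m s ⟨P, hP⟩
  have hinj : Set.InjOn (fun x : ℕ × ℕ => (x.2, x.1)) (D : Set (ℕ × ℕ)) := by
    rintro ⟨a, b⟩ _ ⟨a', b'⟩ _ h
    simp only [Prod.mk.injEq] at h
    rw [h.1, h.2]
  have hE : ∀ (o d : ℕ × ℕ) (x y : ℂ), E (o.2, o.1) (d.2, d.1) y x = E o d x y := by
    intro o d x y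
    simp only [E]
    ring
  refine ⟨fun k => ((P k).2, (P k).1), fun c hc => ?_⟩
  have h1 := hP (fun d => c (d.2, d.1)) (by
    intro r hr
    have hr' : (r.1, (r.2.2, r.2.1)) ∈ rows m s := by
      rw [mem_rows] at hr ⊢
      exact ⟨hr.1, by simpa [add_comm] using hr.2⟩
    have h2 := hc _ hr'
    rw [sum_image hinj] at h2
    rw [← h2]
    apply sum_congr rfl
    intro d _
    simp only
    rw [hE])
  intro d hd
  rw [mem_image] at hd
  obtain ⟨x, hx, rfl⟩ := hd
  exact h1 x hx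

end Pool.Agent.Helper9.EW
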